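import Pool.Agent.K4H4.ST.Local
import Pool.Agent.R320.KL.Gmo

/-!
# The limiting moments as Gaussian integrals
-/

set_option autoImplicit false

namespace Pool.Agent.K4H4.ST

open Finset MeasureTheory ProbabilityTheory

theorem gauss_int (i : ℕ) : Integrable (fun z : ℝ => z ^ i) (gaussianReal 0 1) := by
  have h := memLp_id_gaussianReal' (μ := 0) (v := 1) (i : ENNReal) (by simp)
  rcases Nat.eq_zero_or_pos i with hi | hi
  · rw [hi]
    simp
  · have h2 := h.integrable_norm_pow (by omega)
    have h3 : Integrable (fun z : ℝ => ‖z ^ i‖) (gaussianReal 0 1) := by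
      refine h2.congr (Filter.Eventually.of_forall fun z => ?_)
      simp [norm_pow]
    exact (integrable_norm_iff (by fun_prop)).1 h3

theorem gm_eq (j κ : ℕ) : gm j κ = ∫ z : ℝ, (Real.sqrt j * z - eta j) ^ κ ∂(gaussianReal 0 1) := by
  have h1 : ∀ z : ℝ, (Real.sqrt j * z - eta j) ^ κ = ∑ i ∈ range (κ + 1), (κ.choose i : ℝ) * ((-eta j) ^ (κ - i) * Real.sqrt j ^ i) * z ^ i := by
    intro z
    rw [sub_eq_add_neg, add_pow]
    apply sum_congr rfl
    intro i _
    rw [mul_pow]
    ring
  simp only [h1]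
  rw [integral_finset_sum _ (fun i _ => (gauss_int i).const_mul _)]
  unfold gm
  apply sum_congr rfl
  intro i hi
  rw [mem_range] at hi
  rw [integral_const_mul]
  rcases Nat.even_or_odd i with he | ho
  · obtain ⟨a, ha⟩ := he
    have h2 : ∫ z : ℝ, z ^ i ∂(gaussianReal 0 1) = (Nat.doubleFactorial (2 * a - 1) : ℝ) := by
      rw [show i = 2 * a by omega]
      exact Pool.Agent.R320.KL.gm_even a
    rw [h2]
    unfold G
    rw [if_pos ⟨a, ha⟩]
    have h3 : Real.sqrt j ^ i = (j : ℝ) ^ a := by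
      rw [show i = 2 * a by omega, pow_mul, Real.sq_sqrt (Nat.cast_nonneg _)]
    rw [h3, show i / 2 = a by omega, show i - 1 = 2 * a - 1 by omega]
    have h4 : (-eta j) ^ (κ - i) = (-1) ^ κ * eta j ^ (κ - i) := by
      rw [neg_pow (eta j)]
      congr 1
      have : κ = (κ - i) + 2 * a := by omega
      conv_rhs => rw [this]
      rw [pow_add, pow_mul]
      norm_num
    rw [h4]
    ring
  · rw [Pool.Agent.R320.KL.gm_odd i ho 1]
    unfold G
    rw [if_neg (Nat.not_even_iff_odd.2 ho)]
    ring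

end Pool.Agent.K4H4.ST
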