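import Pool.Agent.K4H4.ST.Orbits
import Pool.Agent.H341R2.WeilSharp

/-!
# Character sums over an extension and over its elements of exact degree
-/

set_option autoImplicit false

namespace Pool.Agent.K4H4.ST

open Finset Polynomial

section Poly

variable {k : Type} [Field k]

/-- the monic polynomial with the coefficients `u` -/
noncomputable def pl (D : ℕ) (u : Fin D → k) : k[X] := X ^ D + ∑ t, C (u t) * X ^ (t : ℕ)

theorem deg_low (D : ℕ) (u : Fin D → k) : (∑ t, C (u t) * X ^ (t : ℕ) : k[X]).degree < D := degree_sum_fin_lt u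

theorem pl_monic (D : ℕ) (u : Fin D → k) : (pl D u).Monic := monic_X_pow_add (deg_low D u)

theorem pl_natDegree (D : ℕ) (u : Fin D → k) : (pl D u).natDegree = D := by
  apply natDegree_eq_of_degree_eq_some
  unfold pl
  rw [degree_add_eq_left_of_degree_lt, degree_X_pow]
  rw [degree_X_pow]
  exact deg_low D u

theorem va_eq (L : Type) [Field L] [Algebra k L] (D : ℕ) (u : Fin D → k) (x : L) : va L D u x = aeval x (pl D u) := by
  unfold va pl
  simp

theorem card_zeros (L : Type) [Field L] [Algebra k L] [Fintype L] [DecidableEq L] (D : ℕ) (u : Fin D → k) :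
    ((univ : Finset L).filter (fun x => va L D u x = 0)).card ≤ D := by
  classical
  have hm : ((pl D u).map (algebraMap k L)).Monic := (pl_monic D u).map _
  have h2 : ((univ : Finset L).filter (fun x => va L D u x = 0)) ⊆ ((pl D u).map (algebraMap k L)).roots.toFinset := by
    intro x hx
    rw [mem_filter, va_eq] at hx
    rw [Multiset.mem_toFinset, mem_roots hm.ne_zero, IsRoot, eval_map_algebraMap]
    exact hx.2
  refine (card_le_card h2).trans ((Multiset.toFinset_card_le _).trans ((card_roots' _).trans ?_))
  rw [natDegree_map, pl_natDegree]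

end Poly

section Ch

variable (K : Type) [Field K] [Fintype K] [DecidableEq K]

theorem ch_cases (c : K) : ch K c = 0 ∨ ch K c = 1 ∨ ch K c = -1 := by
  unfold ch
  by_cases hc : c = 0
  · left
    rw [hc, MulChar.map_zero]
    simp
  · right
    rcases quadraticChar_dichotomy hc with h | h
    · left
      rw [h]
      simp
    · right
      rw [h]
      simp

theorem ch_abs (c : K) : |ch K c| ≤ 1 := by
  rcases ch_cases K c with h | h | h <;> rw [h] <;> simp

theorem ch_zero : ch K 0 = 0 := by
  unfold ch
  rw [MulChar.map_zero]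
  simp

end Ch

section Approx

variable {k : Type} [Field k] [Fintype k] {L : Type} [Field L] [Algebra k L] [Fintype L] [DecidableEq L]

omit [Fintype k] in
theorem ch_equiv (σ : L ≃ₐ[k] L) (a : L) : ch L (σ a) = ch L a := by
  unfold ch
  congr 1
  rw [quadraticChar_apply, quadraticChar_apply]
  unfold quadraticCharFun
  have h1 : σ a = 0 ↔ a = 0 := by simp
  have h2 : IsSquare (σ a) ↔ IsSquare a := by
    constructor
    · rintro ⟨r, hr⟩
      refine ⟨σ.symm r, ?_⟩
      apply σ.injective
      rw [hr]
      simp
    · rintro ⟨r, hr⟩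
      exact ⟨σ r, by rw [hr, map_mul]⟩
  simp only [h1, h2]

theorem ch_conj (D : ℕ) (u : Fin D → k) (x y : L) (h : minpoly k x = minpoly k y) : ch L (va L D u x) = ch L (va L D u y) := by
  have : FiniteDimensional k L := Module.Finite.of_finite
  obtain ⟨σ, hσ⟩ := IsConjRoot.exists_algEquiv (K := k) (L := L) (x := x) (y := y) h
  rw [va_eq, va_eq]
  have h2 : aeval x (pl D u) = σ (aeval y (pl D u)) := by
    rw [← hσ]
    exact aeval_algHom_apply σ.toAlgHom y (pl D u)
  rw [h2, ch_equiv]

theorem frob_va (D : ℕ) (u : Fin D → k) (x : L) (n : ℕ) : (va L D u x) ^ Fintype.card k ^ n = va L D u (x ^ Fintype.card k ^ n) := by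
  have h1 : ∀ m : ℕ, ∀ z : L, ((FiniteField.frobeniusAlgHom k L) ^ m) z = z ^ Fintype.card k ^ m := by
    intro m
    induction m with
    | zero => intro z; simp
    | succ m ih =>
      intro z
      rw [pow_succ, AlgHom.mul_apply, ih, FiniteField.coe_frobeniusAlgHom, ← pow_mul, pow_succ, mul_comm]
  rw [← h1, ← h1, va_eq, va_eq, aeval_algHom_apply]

theorem ch_sub (hk : Odd (Fintype.card k)) (hL : ringChar L ≠ 2) (n : ℕ) (hn : Module.finrank k L = 2 * n) (v : L)
    (hv : v ^ Fintype.card k ^ n = v) (hv0 : v ≠ 0) : ch L v = 1 := by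
  have hq : 1 < Fintype.card k := Fintype.one_lt_card
  have h1 : v ^ (Fintype.card k ^ n - 1) = 1 := by
    have h2 : v * v ^ (Fintype.card k ^ n - 1) = v * 1 := by
      rw [mul_one, ← pow_succ', Nat.sub_add_cancel (Nat.one_le_pow _ _ (by omega))]
      exact hv
    exact mul_left_cancel₀ hv0 h2
  have hodd : Odd (Fintype.card k ^ n) := hk.pow
  obtain ⟨a, ha⟩ := hodd
  have h3 : Fintype.card L / 2 = (Fintype.card k ^ n - 1) * (a + 1) := by
    rw [card_L k L, hn, two_mul, pow_add, ha]
    have : (2 * a + 1) * (2 * a + 1) = 2 * ((2 * a + 1 - 1) * (a + 1)) + 1 := by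
      rw [Nat.add_sub_cancel]
      ring
    omega
  unfold ch
  rw [quadraticChar_eq_pow_of_char_ne_two hL hv0, h3, pow_mul, h1, one_pow, if_pos rfl]
  simp

/-- the number of the elements of degree at most `m` -/
theorem card_small (m : ℕ) : ((univ : Finset L).filter (fun x => (minpoly k x).natDegree ≤ m)).card ≤ m * Fintype.card k ^ m := by
  classical
  have hq : 1 < Fintype.card k := Fintype.one_lt_card
  have h1 : (univ : Finset L).filter (fun x => (minpoly k x).natDegree ≤ m) ⊆
      (Icc 1 m).biUnion (fun e => (univ : Finset L).filter (fun x => x ^ Fintype.card k ^ e = x)) := by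
    intro x hx
    rw [mem_filter] at hx
    rw [mem_biUnion]
    refine ⟨(minpoly k x).natDegree, mem_Icc.2 ⟨deg_pos x, hx.2⟩, ?_⟩
    rw [mem_filter]
    exact ⟨mem_univ _, (deg_dvd_iff x _).1 dvd_rfl⟩
  refine (card_le_card h1).trans (card_biUnion_le.trans ?_)
  refine (sum_le_sum (g := fun _ => Fintype.card k ^ m) fun e he => ?_).trans ?_
  · rw [mem_Icc] at he
    exact (card_fixed_le e he.1).trans (Nat.pow_le_pow_right (by omega) he.2)
  · rw [sum_const, Nat.card_Icc, smul_eq_mul, Nat.add_sub_cancel]

/-- the elements which are not of exact degree -/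
theorem card_compl : (Fintype.card L : ℝ) - (S k L).card ≤ Module.finrank k L * (Fintype.card k : ℝ) ^ (Module.finrank k L / 2) := by
  classical
  have h1 : ((univ : Finset L) \ S k L) ⊆ (univ : Finset L).filter (fun x => (minpoly k x).natDegree ≤ Module.finrank k L / 2) := by
    intro x hx
    rw [mem_sdiff] at hx
    rw [mem_filter]
    refine ⟨mem_univ _, ?_⟩
    have h2 : (minpoly k x).natDegree ≠ Module.finrank k L := by
      intro h
      apply hx.2
      unfold S
      rw [mem_filter]
      exact ⟨mem_univ _, h⟩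
    obtain ⟨c, hc⟩ := deg_dvd (k := k) x
    have h3 := fin_pos (k := k) (L := L)
    have h4 : 2 ≤ c := by
      by_contra hcon
      have h5 : c = 0 ∨ c = 1 := by omega
      rcases h5 with h5 | h5
      · rw [h5, mul_zero] at hc
        omega
      · rw [h5, mul_one] at hc
        exact h2 hc.symm
    rw [Nat.le_div_iff_mul_le two_pos, hc]
    exact Nat.mul_le_mul_left _ h4
  have h2 := (card_le_card h1).trans (card_small (k := k) (L := L) (Module.finrank k L / 2))
  have h3 : ((univ : Finset L) \ S k L).card + (S k L).card = Fintype.card L := by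
    rw [card_sdiff_add_card_eq_card (subset_univ _), card_univ]
  have h4 : (Fintype.card L : ℝ) - (S k L).card = (((univ : Finset L) \ S k L).card : ℝ) := by
    rw [← h3]
    push_cast
    ring
  rw [h4]
  have h5 : (((univ : Finset L) \ S k L).card : ℝ) ≤ ((Module.finrank k L / 2 * Fintype.card k ^ (Module.finrank k L / 2) : ℕ) : ℝ) := by
    exact_mod_cast h2
  refine h5.trans ?_
  push_cast
  apply mul_le_mul_of_nonneg_right _ (by positivity)
  exact_mod_cast Nat.div_le_self _ _

/-- the character sum over the extension -/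
noncomputable def T (L : Type) [Field L] [Algebra k L] [Fintype L] [DecidableEq L] (D : ℕ) (u : Fin D → k) : ℝ := ∑ x : L, ch L (va L D u x)

theorem T_approx (hk : Odd (Fintype.card k)) (hL : ringChar L ≠ 2) (D : ℕ) (u : Fin D → k) :
    |T L D u - ∑ x ∈ S k L, ch L (va L D u x) - (if Even (Module.finrank k L) then (Fintype.card k : ℝ) ^ (Module.finrank k L / 2) else 0)| ≤
      D + Module.finrank k L * (Fintype.card k : ℝ) ^ (Module.finrank k L / 3) := by
  classical
  obtain ⟨H, hH⟩ : ∃ H : Finset L, H = if Even (Module.finrank k L) then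
    (univ : Finset L).filter (fun x => x ^ Fintype.card k ^ (Module.finrank k L / 2) = x) else ∅ := ⟨_, rfl⟩
  have hpos := fin_pos (k := k) (L := L)
  -- H and S are disjoint
  have hdis : Disjoint (S k L) H := by
    rw [disjoint_left]
    intro x hx hx2
    rw [hH] at hx2
    split_ifs at hx2 with he
    · rw [mem_filter, ← deg_dvd_iff] at hx2
      unfold S at hx
      rw [mem_filter] at hx
      rw [hx.2] at hx2
      have := Nat.le_of_dvd (by obtain ⟨c, hc⟩ := he; omega) hx2.2
      omega
    · simp at hx2
  -- the rest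
  have hrest : ((univ : Finset L) \ (S k L ∪ H)) ⊆ (univ : Finset L).filter (fun x => (minpoly k x).natDegree ≤ Module.finrank k L / 3) := by
    intro x hx
    rw [mem_sdiff, mem_union, not_or] at hx
    obtain ⟨_, hx1, hx2⟩ := hx
    rw [mem_filter]
    refine ⟨mem_univ _, ?_⟩
    have h2 : (minpoly k x).natDegree ≠ Module.finrank k L := by
      intro h
      apply hx1
      unfold S
      rw [mem_filter]
      exact ⟨mem_univ _, h⟩
    obtain ⟨c, hc⟩ := deg_dvd (k := k) x
    have h4 : 3 ≤ c := by
      by_contra hcon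
      have h5 : c = 0 ∨ c = 1 ∨ c = 2 := by omega
      rcases h5 with h5 | h5 | h5
      · rw [h5, mul_zero] at hc
        omega
      · rw [h5, mul_one] at hc
        exact h2 hc.symm
      · rw [h5] at hc
        apply hx2
        rw [hH, if_pos ⟨(minpoly k x).natDegree, by omega⟩, mem_filter]
        refine ⟨mem_univ _, ?_⟩
        rw [← deg_dvd_iff, hc, Nat.mul_div_cancel _ two_pos]
    rw [Nat.le_div_iff_mul_le (by norm_num), hc]
    exact Nat.mul_le_mul_left _ h4
  have hsplit : T L D u = ∑ x ∈ S k L, ch L (va L D u x) + ∑ x ∈ H, ch L (va L D u x) +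
      ∑ x ∈ (univ : Finset L) \ (S k L ∪ H), ch L (va L D u x) := by
    unfold T
    rw [← sum_union hdis, add_comm, sum_sdiff (subset_univ _)]
  have hHsum : |∑ x ∈ H, ch L (va L D u x) - (if Even (Module.finrank k L) then (Fintype.card k : ℝ) ^ (Module.finrank k L / 2) else 0)| ≤ D := by
    rw [hH]
    split_ifs with he
    · obtain ⟨n, hn⟩ := he
      have hn2 : Module.finrank k L / 2 = n := by omega
      rw [hn2]
      have h1 : ∀ x ∈ (univ : Finset L).filter (fun x => x ^ Fintype.card k ^ n = x), ch L (va L D u x) =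
          1 - (if va L D u x = 0 then 1 else 0) := by
        intro x hx
        rw [mem_filter] at hx
        by_cases h0 : va L D u x = 0
        · rw [if_pos h0, h0, ch_zero, sub_self]
        · rw [if_neg h0, sub_zero]
          apply ch_sub hk hL n (by omega) _ _ h0
          rw [frob_va, hx.2]
      rw [sum_congr rfl h1, sum_sub_distrib, sum_const, card_fixed n (by omega) ⟨2, by omega⟩]
      have h2 : ∑ x ∈ (univ : Finset L).filter (fun x => x ^ Fintype.card k ^ n = x), (if va L D u x = 0 then (1 : ℝ) else 0) =
          ((((univ : Finset L).filter (fun x => x ^ Fintype.card k ^ n = x)).filter (fun x => va L D u x = 0)).card : ℝ) := by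
        rw [sum_boole]
      rw [h2, nsmul_eq_mul, mul_one]
      push_cast
      rw [sub_sub_cancel_left, abs_neg, Nat.abs_cast]
      have h3 := (card_le_card (filter_subset_filter (fun x => va L D u x = 0)
        (filter_subset (fun x => x ^ Fintype.card k ^ n = x) (univ : Finset L)))).trans (card_zeros L D u)
      exact_mod_cast h3
    · simp
  have hrs : |∑ x ∈ (univ : Finset L) \ (S k L ∪ H), ch L (va L D u x)| ≤
      Module.finrank k L * (Fintype.card k : ℝ) ^ (Module.finrank k L / 3) := by
    refine (abs_sum_le_sum_abs _ _).trans ((sum_le_sum (g := fun _ => (1 : ℝ)) fun x _ => ch_abs L _).trans ?_)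
    rw [sum_const, nsmul_eq_mul, mul_one]
    have h2 := (card_le_card hrest).trans (card_small (k := k) (L := L) (Module.finrank k L / 3))
    have h5 : ((((univ : Finset L) \ (S k L ∪ H)).card : ℕ) : ℝ) ≤ ((Module.finrank k L / 3 * Fintype.card k ^ (Module.finrank k L / 3) : ℕ) : ℝ) := by
      exact_mod_cast h2
    refine h5.trans ?_
    push_cast
    apply mul_le_mul_of_nonneg_right _ (by positivity)
    exact_mod_cast Nat.div_le_self _ _
  rw [hsplit]
  have e : ∀ a b c d : ℝ, a + b + c - a - d = (b - d) + c := fun a b c d => by ring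
  rw [e]
  exact (abs_add_le _ _).trans (add_le_add hHsum hrs)

/-- Weil's bound -/
theorem T_weil (hL : ringChar L ≠ 2) (D : ℕ) (hD : Odd D) (u : Fin D → k) : |T L D u| ≤ D * Real.sqrt (Fintype.card L) := by
  have hm : ((pl D u).map (algebraMap k L)).Monic := (pl_monic D u).map _
  have hnd : ((pl D u).map (algebraMap k L)).natDegree = D := by rw [natDegree_map, pl_natDegree]
  have h1 := Pool.Agent.H341R2.Sharp.weil_sharp_monic hL hm (by rw [hnd]; exact hD.pos) (by
    intro c h hc
    have hc0 : c ≠ 0 := by
      rintro rfl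
      rw [C_0, zero_mul] at hc
      exact hm.ne_zero hc
    have h2 := hnd
    rw [hc, natDegree_C_mul hc0, natDegree_pow] at h2
    obtain ⟨a, ha⟩ := hD
    omega)
  rw [hnd] at h1
  have h3 : T L D u = ∑ x : L, (quadraticChar L (((pl D u).map (algebraMap k L)).eval x) : ℝ) := by
    unfold T ch
    apply sum_congr rfl
    intro x _
    rw [va_eq, eval_map_algebraMap]
  rw [h3]
  refine h1.trans ?_
  apply mul_le_mul_of_nonneg_right _ (Real.sqrt_nonneg _)
  linarith

end Approx

end Pool.Agent.K4H4.ST
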