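import Pool.Agent.K4H4.ST.Surj
import Pool.Agent.Y57.FD.Mom

/-!
# Independence of the characters of the values of a random monic polynomial at closed points of total degree at most `D`
-/

set_option autoImplicit false

namespace Pool.Agent.K4H4.ST

open Finset Polynomial
open Pool.Agent.Y57.FD.Mom (mean_hom M)

section Indep

variable (k : Type) [Field k] [Fintype k] {J : Type} [Fintype J] [DecidableEq J] (L : J → Type) [∀ j, Field (L j)]
  [∀ j, Algebra k (L j)] [∀ j, Fintype (L j)] [∀ j, DecidableEq (L j)]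

/-- the quadratic character as a real number -/
noncomputable def ch (K : Type) [Field K] [Fintype K] [DecidableEq K] (c : K) : ℝ := (quadraticChar K c : ℝ)

/-- the value at `x` of the monic polynomial of degree `D` with the coefficients `u` -/
noncomputable def va {k : Type} [Field k] (K : Type) [Field K] [Algebra k K] (D : ℕ) (u : Fin D → k) (x : K) : K :=
  x ^ D + ∑ t, algebraMap k K (u t) * x ^ (t : ℕ)

/-- the family of the points -/
structure Reps where
  R : ∀ j, Finset (L j)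
  deg : ∀ j, ∀ x ∈ R j, (minpoly k x).natDegree = Module.finrank k (L j)
  inj : ∀ j, ∀ x ∈ R j, ∀ y ∈ R j, minpoly k x = minpoly k y → x = y
  dg : ∀ i j, Module.finrank k (L i) = Module.finrank k (L j) → i = j

variable {k L}

theorem indep (r : Reps k L) {Pos : Type} [Fintype Pos] (a : Pos → J) (b : ∀ p, r.R (a p)) (D : ℕ)
    (hD : ∑ p, Module.finrank k (L (a p)) ≤ D) :
    (∑ u : Fin D → k, ∏ p, ch (L (a p)) (va (L (a p)) D u (b p : L (a p)))) / (Fintype.card k : ℝ) ^ D =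
    (∑ ω : ∀ j, (r.R j → L j), ∏ p, ch (L (a p)) (ω (a p) (b p))) / (Fintype.card (∀ j, (r.R j → L j)) : ℝ) := by
  classical
  obtain ⟨s, hs⟩ : ∃ s : Finset (Σ j, r.R j), s = univ.image (fun p => (⟨a p, b p⟩ : Σ j, r.R j)) := ⟨_, rfl⟩
  have hsx : ∀ p, (⟨a p, b p⟩ : Σ j, r.R j) ∈ s := fun p => by rw [hs]; exact mem_image_of_mem _ (mem_univ p)
  have hsd : ∑ i : s, Module.finrank k (L i.1.1) ≤ D := by
    rw [Finset.sum_coe_sort s (fun i => Module.finrank k (L i.1))]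
    refine le_trans ?_ hD
    rw [hs]
    exact Finset.sum_image_le_of_nonneg (fun _ _ => Nat.zero_le _)
  have hfd : ∀ j, FiniteDimensional k (L j) := fun j => Module.Finite.of_finite
  have hsurj := evL_surj (k := k) (fun i : s => L i.1.1) (fun i => ((i.1.2 : r.R i.1.1) : L i.1.1)) (by
    rintro ⟨⟨j, x⟩, hx⟩ ⟨⟨j', x'⟩, hx'⟩ h
    simp only at h
    have hj : j = j' := by
      apply r.dg
      rw [← r.deg j x x.2, ← r.deg j' x' x'.2, h]
    subst hj
    have hxx : (x : L j) = x' := r.inj j x x.2 x' x'.2 h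
    have : x = x' := Subtype.ext hxx
    subst this
    rfl) (fun i => r.deg i.1.1 _ i.1.2.2) D hsd
  obtain ⟨res, hres⟩ : ∃ res : (∀ j, (r.R j → L j)) →+ (∀ i : s, L i.1.1), ∀ ω i, res ω i = ω i.1.1 i.1.2 :=
    ⟨{ toFun := fun ω i => ω i.1.1 i.1.2, map_zero' := rfl, map_add' := fun _ _ => rfl }, fun _ _ => rfl⟩
  have hres_surj : Function.Surjective res := by
    intro v
    refine ⟨fun j y => if h : (⟨j, y⟩ : Σ j, r.R j) ∈ s then v ⟨⟨j, y⟩, h⟩ else 0, ?_⟩
    funext i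
    rw [hres]
    have hi : (⟨i.1.1, i.1.2⟩ : Σ j, r.R j) ∈ s := i.2
    show (if h : (⟨i.1.1, i.1.2⟩ : Σ j, r.R j) ∈ s then v ⟨⟨i.1.1, i.1.2⟩, h⟩ else 0) = v i
    rw [dif_pos hi]
  have h1 := mean_hom (evL k (fun i : s => L i.1.1) (fun i => ((i.1.2 : r.R i.1.1) : L i.1.1)) D) hsurj
    (fun v => ∏ p, ch (L (a p)) ((b p : L (a p)) ^ D + v ⟨⟨a p, b p⟩, hsx p⟩))
  have h2 := mean_hom res hres_surj (fun v => ∏ p, ch (L (a p)) (v ⟨⟨a p, b p⟩, hsx p⟩))
  have h3 : (∑ v : (∀ i : s, L i.1.1), ∏ p, ch (L (a p)) ((b p : L (a p)) ^ D + v ⟨⟨a p, b p⟩, hsx p⟩)) =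
      ∑ v : (∀ i : s, L i.1.1), ∏ p, ch (L (a p)) (v ⟨⟨a p, b p⟩, hsx p⟩) := by
    refine Fintype.sum_equiv (Equiv.addLeft (fun i : s => ((i.1.2 : r.R i.1.1) : L i.1.1) ^ D)) _ _ ?_
    intro v
    rfl
  rw [h3, ← h2] at h1
  have c1 : (Fintype.card (Fin D → k) : ℝ) = (Fintype.card k : ℝ) ^ D := by
    rw [Fintype.card_pi_const]
    push_cast
    rfl
  rw [c1] at h1
  have h4 : ∀ ω : (∀ j, (r.R j → L j)), ∏ p, ch (L (a p)) (res ω ⟨⟨a p, b p⟩, hsx p⟩) = ∏ p, ch (L (a p)) (ω (a p) (b p)) := by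
    intro ω
    apply prod_congr rfl
    intro p _
    rw [hres]
  rw [sum_congr rfl (fun ω _ => h4 ω)] at h1
  exact h1

end Indep

end Pool.Agent.K4H4.ST
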