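import Pool.Agent.K4H4.ST.Approx

/-!
# The joint moments of the normalised traces of the powers of Frobenius in the family of all monic polynomials over a finite field
-/

set_option autoImplicit false

namespace Pool.Agent.K4H4.ST

open Finset Polynomial
open Pool.Agent.Y57.FD.Mom (M normal)

section Elem

theorem prod_diff {J : Type} [DecidableEq J] (I : Finset J) (B : ℝ) (hB : 1 ≤ B) (X Y e : J → ℝ) (hX : ∀ j ∈ I, |X j| ≤ B)
    (hY : ∀ j ∈ I, |Y j| ≤ B) (he : ∀ j ∈ I, |X j - Y j| ≤ e j) : |∏ j ∈ I, X j - ∏ j ∈ I, Y j| ≤ B ^ I.card * ∑ j ∈ I, e j := by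
  classical
  induction I using Finset.induction_on with
  | empty => simp
  | insert a I ha ih =>
    have h1 := ih (fun j hj => hX j (mem_insert_of_mem hj)) (fun j hj => hY j (mem_insert_of_mem hj))
      (fun j hj => he j (mem_insert_of_mem hj))
    rw [prod_insert ha, prod_insert ha, sum_insert ha, card_insert_of_notMem ha]
    have h2 : X a * ∏ j ∈ I, X j - Y a * ∏ j ∈ I, Y j = (X a - Y a) * ∏ j ∈ I, X j + Y a * (∏ j ∈ I, X j - ∏ j ∈ I, Y j) := by ring
    rw [h2]
    have h3 : |∏ j ∈ I, X j| ≤ B ^ I.card := by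
      rw [abs_prod]
      calc ∏ j ∈ I, |X j| ≤ ∏ _j ∈ I, B := prod_le_prod (fun j _ => abs_nonneg _) (fun j hj => hX j (mem_insert_of_mem hj))
        _ = B ^ I.card := prod_const _
    have h4 := he a (mem_insert_self a I)
    have h5 := hY a (mem_insert_self a I)
    have h6 : 0 ≤ e a := (abs_nonneg _).trans h4
    have h7 : 0 ≤ ∑ j ∈ I, e j := sum_nonneg fun j hj => (abs_nonneg _).trans (he j (mem_insert_of_mem hj))
    have hB0 : 0 < B := by linarith
    refine (abs_add_le _ _).trans ?_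
    rw [abs_mul, abs_mul]
    calc |X a - Y a| * |∏ j ∈ I, X j| + |Y a| * |∏ j ∈ I, X j - ∏ j ∈ I, Y j| ≤ e a * B ^ I.card + B * (B ^ I.card * ∑ j ∈ I, e j) :=
          add_le_add (mul_le_mul h4 h3 (abs_nonneg _) h6) (mul_le_mul h5 h1 (abs_nonneg _) hB0.le)
      _ ≤ B ^ (I.card + 1) * e a + B ^ (I.card + 1) * ∑ j ∈ I, e j := by
          apply add_le_add
          · rw [mul_comm]
            apply mul_le_mul_of_nonneg_right _ h6
            exact pow_le_pow_right₀ hB (by omega)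
          · apply le_of_eq
            ring
      _ = _ := by ring

theorem pow_diff (B : ℝ) (hB : 1 ≤ B) (x y : ℝ) (hx : |x| ≤ B) (hy : |y| ≤ B) (m : ℕ) : |x ^ m - y ^ m| ≤ m * B ^ m * |x - y| := by
  have h1 := abs_pow_sub_pow_le x y m
  refine h1.trans ?_
  have h2 : max |x| |y| ^ (m - 1) ≤ B ^ m := by
    have h3 : max |x| |y| ≤ B := max_le hx hy
    have h4 : 0 ≤ max |x| |y| := (abs_nonneg x).trans (le_max_left _ _)
    calc max |x| |y| ^ (m - 1) ≤ B ^ (m - 1) := pow_le_pow_left₀ h4 h3 _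
      _ ≤ B ^ m := pow_le_pow_right₀ hB (by omega)
  calc |x - y| * m * max |x| |y| ^ (m - 1) ≤ |x - y| * m * B ^ m := mul_le_mul_of_nonneg_left h2 (by positivity)
    _ = _ := by ring

theorem one_sub_pow (x : ℝ) (hx0 : 0 ≤ x) (hx1 : x ≤ 1) (a : ℕ) : |x ^ a - 1| ≤ a * (1 - x) := by
  rw [abs_sub_comm, abs_of_nonneg (sub_nonneg.2 (pow_le_one₀ hx0 hx1))]
  have h := one_add_mul_le_pow (a := x - 1) (by linarith) a
  have e : (1 + (x - 1)) = x := by ring
  rw [e] at h
  nlinarith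

end Elem

/-- the moments of `√j Z` for a standard normal `Z` -/
noncomputable def G (j i : ℕ) : ℝ := if Even i then (Nat.doubleFactorial (i - 1) : ℝ) * (j : ℝ) ^ (i / 2) else 0

/-- `1` for even `j` and `0` for odd `j` -/
def eta (j : ℕ) : ℝ := if Even j then 1 else 0

/-- the moments of `-(√j Z + η)` -/
noncomputable def gm (j κ : ℕ) : ℝ := ∑ i ∈ range (κ + 1), (κ.choose i : ℝ) * ((-1) ^ κ * eta j ^ (κ - i) * G j i)

section One

variable {k : Type} [Field k] [Fintype k] {L : Type} [Field L] [Algebra k L] [Fintype L] [DecidableEq L]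

theorem sqrt_card_L : Real.sqrt (Fintype.card L) = Real.sqrt (Fintype.card k) ^ Module.finrank k L := by
  rw [card_L k L]
  push_cast
  rw [Real.sqrt_eq_rpow, Real.sqrt_eq_rpow, ← Real.rpow_natCast, ← Real.rpow_natCast, ← Real.rpow_mul (by positivity),
    ← Real.rpow_mul (by positivity), mul_comm]

/-- the moments of the normalised sum over the closed points of degree `j` in the independent model -/
theorem single_growth (a : ℕ) : ∃ C : ℕ → ℝ, (∀ j, 0 ≤ C j) ∧ ∀ (k : Type) [Field k] [Fintype k] (L : Type) [Field L] [Algebra k L] [Fintype L]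
    [DecidableEq L], ringChar L ≠ 2 →
    |(Module.finrank k L : ℝ) ^ a / Real.sqrt (Fintype.card k) ^ (Module.finrank k L * a) * M L a (Rp k L).card - G (Module.finrank k L) a| ≤
      C (Module.finrank k L) / Real.sqrt (Fintype.card k) := by
  rcases Nat.even_or_odd a with ha | ha
  · obtain ⟨b, hb⟩ := ha
    obtain ⟨C, hC0, hC⟩ := Pool.Agent.Y57.FD.Mom.growth b
    refine ⟨fun j => (j : ℝ) ^ a * C + (Nat.doubleFactorial (2 * b - 1) : ℝ) * (j : ℝ) ^ b * (b * j), fun j => by positivity, ?_⟩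
    intro k _ _ L _ _ _ _ hL
    obtain ⟨j, hj⟩ : ∃ j : ℕ, j = Module.finrank k L := ⟨_, rfl⟩
    obtain ⟨Q, hQ⟩ : ∃ Q : ℕ, Q = Fintype.card L := ⟨_, rfl⟩
    obtain ⟨s, hs⟩ : ∃ s : ℝ, s = Real.sqrt (Fintype.card k) := ⟨_, rfl⟩
    have hj1 : 1 ≤ j := by rw [hj]; exact fin_pos
    have hq1 : (1 : ℝ) ≤ Fintype.card k := by exact_mod_cast Fintype.card_pos
    have hs1 : 1 ≤ s := by rw [hs]; exact Real.one_le_sqrt.2 hq1
    have hs0 : 0 < s := by linarith
    have hss : s ^ 2 = Fintype.card k := by rw [hs, Real.sq_sqrt (by positivity)]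
    have hQs : (Q : ℝ) = s ^ (2 * j) := by
      rw [pow_mul, hss, hQ, card_L k L, hj]
      push_cast
      rfl
    have hQ1 : 1 ≤ Q := by rw [hQ]; exact Fintype.card_pos
    have hQ0 : (0 : ℝ) < Q := by exact_mod_cast hQ1
    obtain ⟨N, hN⟩ : ∃ N : ℕ, N = (Rp k L).card := ⟨_, rfl⟩
    have hNQ : N ≤ Q := by
      rw [hN, hQ]
      exact card_le_univ _
    have h1 := hC Q hQ1 (M L) (Pool.Agent.Y57.FD.Mom.e L) (Pool.Agent.Y57.FD.Mom.M_zero L) (Pool.Agent.Y57.FD.Mom.M_N_zero L)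
      (Pool.Agent.Y57.FD.Mom.M_succ L) (Pool.Agent.Y57.FD.Mom.e_zero L) (Pool.Agent.Y57.FD.Mom.e_odd L hL)
      (by rw [hQ]; exact Pool.Agent.Y57.FD.Mom.e_even L) N hNQ
    have h2 : (j : ℝ) * N = ((S k L).card : ℝ) := by
      rw [hj, hN, card_S]
    have h3 : (Q : ℝ) - (S k L).card ≤ j * (Fintype.card k : ℝ) ^ (j / 2) := by
      rw [hQ, hj]
      exact card_compl
    have h4 : ((S k L).card : ℝ) ≤ Q := by
      rw [hQ]
      exact_mod_cast card_le_univ _
    obtain ⟨z, hz⟩ : ∃ z : ℝ, z = (j : ℝ) * N / Q := ⟨_, rfl⟩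
    have hz0 : 0 ≤ z := by rw [hz]; positivity
    have hz1 : z ≤ 1 := by
      rw [hz, div_le_one hQ0, h2]
      exact h4
    have hz2 : 1 - z ≤ j / s := by
      rw [hz, h2, le_div_iff₀ hs0]
      have h5 : (1 - ((S k L).card : ℝ) / Q) * s = ((Q : ℝ) - (S k L).card) * s / Q := by
        field_simp
      rw [h5, div_le_iff₀ hQ0]
      refine (mul_le_mul_of_nonneg_right h3 hs0.le).trans ?_
      rw [mul_assoc]
      apply mul_le_mul_of_nonneg_left _ (Nat.cast_nonneg _)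
      rw [← hss, ← pow_mul, ← pow_succ, hQs]
      exact pow_le_pow_right₀ hs1 (by omega)
    have h6 := one_sub_pow z hz0 hz1 b
    rw [← hj, ← hs, ← hN]
    show _ ≤ ((j : ℝ) ^ a * C + (Nat.doubleFactorial (2 * b - 1) : ℝ) * (j : ℝ) ^ b * (b * j)) / s
    have hab : a = 2 * b := by omega
    have e1 : G j a = (Nat.doubleFactorial (2 * b - 1) : ℝ) * (j : ℝ) ^ b := by
      unfold G
      rw [if_pos ⟨b, hb⟩, hab, Nat.mul_div_cancel_left _ two_pos]
    have e2 : s ^ (j * a) = (Q : ℝ) ^ b := by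
      rw [hQs, ← pow_mul, hab]
      congr 1
      ring
    have e3 : (j : ℝ) ^ a / (Q : ℝ) ^ b * M L a N - G j a =
        (j : ℝ) ^ a * ((M L (2 * b) N - (Nat.doubleFactorial (2 * b - 1) : ℝ) * (N : ℝ) ^ b) / (Q : ℝ) ^ b) +
        (Nat.doubleFactorial (2 * b - 1) : ℝ) * (j : ℝ) ^ b * (z ^ b - 1) := by
      rw [e1, hz, hab, div_pow, mul_pow]
      field_simp
      ring
    rw [e2, e3]
    have h7 : |(M L (2 * b) N - (Nat.doubleFactorial (2 * b - 1) : ℝ) * (N : ℝ) ^ b) / (Q : ℝ) ^ b| ≤ C / s := by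
      rw [abs_div, abs_of_pos (by positivity : (0 : ℝ) < (Q : ℝ) ^ b), div_le_iff₀ (by positivity)]
      refine h1.trans ?_
      have h8 : s ≤ Q := by
        rw [hQs]
        exact le_self_pow₀ hs1 (by omega)
      calc C * (Q : ℝ) ^ b / Q ≤ C * (Q : ℝ) ^ b / s := div_le_div_of_nonneg_left (by positivity) hs0 h8
        _ = C / s * (Q : ℝ) ^ b := by ring
    refine (abs_add_le _ _).trans ?_
    rw [abs_mul, abs_mul, add_div, abs_of_nonneg (by positivity : (0 : ℝ) ≤ (j : ℝ) ^ a),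
      abs_of_nonneg (by positivity : (0 : ℝ) ≤ (Nat.doubleFactorial (2 * b - 1) : ℝ) * (j : ℝ) ^ b)]
    apply add_le_add
    · rw [mul_div_assoc]
      exact mul_le_mul_of_nonneg_left h7 (by positivity)
    · rw [mul_div_assoc]
      apply mul_le_mul_of_nonneg_left _ (by positivity)
      refine h6.trans ?_
      rw [mul_div_assoc]
      exact mul_le_mul_of_nonneg_left hz2 (Nat.cast_nonneg _)
  · refine ⟨fun _ => 0, fun _ => le_rfl, ?_⟩
    intro k _ _ L _ _ _ _ hL
    rw [Pool.Agent.Y57.FD.Mom.M_odd L hL a ha]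
    unfold G
    rw [if_neg (Nat.not_even_iff_odd.2 ha)]
    simp

end One

end Pool.Agent.K4H4.ST
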