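import Pool.Agent.K4H4.ST.Indep

/-!
# The joint moments of the character sums over closed points
-/

set_option autoImplicit false

namespace Pool.Agent.K4H4.ST

open Finset Polynomial
open Pool.Agent.Y57.FD.Mom (mean_hom M)

section Expand

variable {J : Type} [Fintype J] [DecidableEq J]

theorem expand {X : J → Type} [∀ j, Fintype (X j)] (i : J → ℕ) (F : ∀ j, X j → ℝ) :
    ∏ j, (∑ y, F j y) ^ (i j) = ∑ b : (∀ p : (Σ j, Fin (i j)), X p.1), ∏ p : (Σ j, Fin (i j)), F p.1 (b p) := by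
  classical
  have h1 := Finset.prod_univ_sum (ι := (Σ j, Fin (i j))) (κ := fun p => X p.1) (fun _ => univ) (fun p y => F p.1 y)
  rw [Fintype.piFinset_univ] at h1
  rw [← h1, Fintype.prod_sigma]
  apply prod_congr rfl
  intro j _
  show _ = ∏ _y : Fin (i j), ∑ z, F j z
  rw [prod_const, card_univ, Fintype.card_fin]

theorem prod_means {X : J → Type} [∀ j, Fintype (X j)] [∀ j, DecidableEq (X j)] (G : ∀ j, X j → ℝ) :
    (∑ ω : (∀ j, X j), ∏ j, G j (ω j)) / (Fintype.card (∀ j, X j) : ℝ) = ∏ j, ((∑ x, G j x) / (Fintype.card (X j) : ℝ)) := by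
  rw [prod_div_distrib]
  have h1 := Finset.prod_univ_sum (ι := J) (κ := X) (fun _ => univ) G
  rw [Fintype.piFinset_univ] at h1
  rw [h1, Fintype.card_pi]
  push_cast
  rfl

end Expand

section Moments

variable {k : Type} [Field k] [Fintype k] {J : Type} [Fintype J] [DecidableEq J] {L : J → Type} [∀ j, Field (L j)]
  [∀ j, Algebra k (L j)] [∀ j, Fintype (L j)] [∀ j, DecidableEq (L j)]

theorem single (K : Type) [Field K] [Fintype K] [DecidableEq K] (X : Type) [Fintype X] [DecidableEq X] (i : ℕ) :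
    (∑ w : X → K, (∑ y, ch K (w y)) ^ i) / (Fintype.card (X → K) : ℝ) = M K i (Fintype.card X) := by
  unfold M ch
  rw [Fintype.card_fun]
  push_cast
  congr 1
  refine Fintype.sum_equiv (Equiv.arrowCongr (Fintype.equivFin X) (Equiv.refl K)) _ _ ?_
  intro w
  congr 1
  refine Fintype.sum_equiv (Fintype.equivFin X) _ _ ?_
  intro y
  simp [Equiv.arrowCongr]

theorem joint (r : Reps k L) (i : J → ℕ) (D : ℕ) (hD : ∑ j, i j * Module.finrank k (L j) ≤ D) :
    (∑ u : Fin D → k, ∏ j, (∑ y : r.R j, ch (L j) (va (L j) D u (y : L j))) ^ (i j)) / (Fintype.card k : ℝ) ^ D =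
    ∏ j, M (L j) (i j) (r.R j).card := by
  have h1 : ∀ u : Fin D → k, ∏ j, (∑ y : r.R j, ch (L j) (va (L j) D u (y : L j))) ^ (i j) =
      ∑ b : (∀ p : (Σ j, Fin (i j)), r.R p.1), ∏ p : (Σ j, Fin (i j)), ch (L p.1) (va (L p.1) D u (b p : L p.1)) := fun u =>
    expand i (fun j (y : r.R j) => ch (L j) (va (L j) D u (y : L j)))
  have h2 : ∀ ω : (∀ j, (r.R j → L j)), ∏ j, (∑ y : r.R j, ch (L j) (ω j y)) ^ (i j) =
      ∑ b : (∀ p : (Σ j, Fin (i j)), r.R p.1), ∏ p : (Σ j, Fin (i j)), ch (L p.1) (ω p.1 (b p)) := fun ω =>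
    expand i (fun j (y : r.R j) => ch (L j) (ω j y))
  have h3 : ∀ b : (∀ p : (Σ j, Fin (i j)), r.R p.1),
      (∑ u : Fin D → k, ∏ p : (Σ j, Fin (i j)), ch (L p.1) (va (L p.1) D u (b p : L p.1))) / (Fintype.card k : ℝ) ^ D =
      (∑ ω : ∀ j, (r.R j → L j), ∏ p : (Σ j, Fin (i j)), ch (L p.1) (ω p.1 (b p))) / (Fintype.card (∀ j, (r.R j → L j)) : ℝ) := by
    intro b
    apply indep r (fun p : (Σ j, Fin (i j)) => p.1) b D
    rw [Fintype.sum_sigma]
    refine le_trans (le_of_eq ?_) hD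
    apply sum_congr rfl
    intro j _
    show ∑ _y : Fin (i j), Module.finrank k (L j) = _
    rw [sum_const, card_univ, Fintype.card_fin, smul_eq_mul]
  have h4 : (∑ u : Fin D → k, ∏ j, (∑ y : r.R j, ch (L j) (va (L j) D u (y : L j))) ^ (i j)) / (Fintype.card k : ℝ) ^ D =
      (∑ ω : ∀ j, (r.R j → L j), ∏ j, (∑ y : r.R j, ch (L j) (ω j y)) ^ (i j)) / (Fintype.card (∀ j, (r.R j → L j)) : ℝ) := by
    rw [sum_congr rfl (fun u _ => h1 u), sum_congr rfl (fun ω _ => h2 ω), sum_comm, sum_comm (s := (univ : Finset (∀ j, (r.R j → L j)))),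
      sum_div, sum_div]
    exact sum_congr rfl fun b _ => h3 b
  rw [h4, prod_means (X := fun j => (r.R j → L j)) (fun j w => (∑ y : r.R j, ch (L j) (w y)) ^ (i j))]
  apply prod_congr rfl
  intro j _
  rw [single (L j) (r.R j) (i j), Fintype.card_coe]

end Moments

end Pool.Agent.K4H4.ST
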