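import Pool.Agent.K4H4.ST.Moment

/-!
# Conjugacy classes of the elements of exact degree of an extension of a finite field
-/

set_option autoImplicit false

namespace Pool.Agent.K4H4.ST

open Finset Polynomial

section Orbits

variable (k : Type) [Field k] [Fintype k] (L : Type) [Field L] [Algebra k L] [Fintype L] [DecidableEq L]

theorem card_L : Fintype.card L = Fintype.card k ^ Module.finrank k L := by
  have := Module.card_eq_pow_finrank (K := k) (V := L)
  exact this

variable {k L}

theorem int_L (x : L) : IsIntegral k x := by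
  have : FiniteDimensional k L := Module.Finite.of_finite
  exact IsIntegral.of_finite k x

theorem deg_dvd_iff (x : L) (n : ℕ) : (minpoly k x).natDegree ∣ n ↔ x ^ Fintype.card k ^ n = x := by
  have hirr := minpoly.irreducible (int_L (k := k) x)
  rw [Irreducible.natDegree_dvd_iff_dvd_X_pow_card_pow_sub_X hirr, Nat.card_eq_fintype_card, minpoly.dvd_iff]
  simp [sub_eq_zero]

theorem deg_dvd (x : L) : (minpoly k x).natDegree ∣ Module.finrank k L := by
  have : FiniteDimensional k L := Module.Finite.of_finite
  exact minpoly.degree_dvd (int_L (k := k) x)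

theorem deg_pos (x : L) : 0 < (minpoly k x).natDegree := minpoly.natDegree_pos (int_L (k := k) x)

theorem fin_pos : 0 < Module.finrank k L := by
  have : FiniteDimensional k L := Module.Finite.of_finite
  exact Module.finrank_pos

/-- few solutions of `x ^ q ^ n = x` -/
theorem card_fixed_le (n : ℕ) (hn : 1 ≤ n) : ((univ : Finset L).filter (fun x => x ^ Fintype.card k ^ n = x)).card ≤ Fintype.card k ^ n := by
  classical
  have hq : 1 < Fintype.card k := Fintype.one_lt_card
  have hqn : 1 < Fintype.card k ^ n := Nat.one_lt_pow (by omega) hq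
  have h1 : (X ^ (Fintype.card k ^ n) - X : L[X]) ≠ 0 := FiniteField.X_pow_card_sub_X_ne_zero L hqn
  have h2 : ((univ : Finset L).filter (fun x => x ^ Fintype.card k ^ n = x)) ⊆ (X ^ (Fintype.card k ^ n) - X : L[X]).roots.toFinset := by
    intro x hx
    rw [mem_filter] at hx
    rw [Multiset.mem_toFinset, mem_roots h1]
    simp [IsRoot, sub_eq_zero, hx.2]
  refine (card_le_card h2).trans ((Multiset.toFinset_card_le _).trans ((card_roots' _).trans ?_))
  rw [FiniteField.X_pow_card_sub_X_natDegree_eq L hqn]

/-- the number of the solutions of `x ^ q ^ n = x` if `n` divides the degree -/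
theorem card_fixed (n : ℕ) (hn : 1 ≤ n) (hd : n ∣ Module.finrank k L) :
    ((univ : Finset L).filter (fun x => x ^ Fintype.card k ^ n = x)).card = Fintype.card k ^ n := by
  classical
  have hq : 1 < Fintype.card k := Fintype.one_lt_card
  have hqn : 1 < Fintype.card k ^ n := Nat.one_lt_pow (by omega) hq
  have h1 : (X ^ (Fintype.card k ^ n) - X : L[X]) ≠ 0 := FiniteField.X_pow_card_sub_X_ne_zero L hqn
  have hN : Fintype.card k ^ Module.finrank k L = Fintype.card L := (card_L k L).symm
  have hdvd : (X ^ (Fintype.card k ^ n) - X : L[X]) ∣ X ^ (Fintype.card L) - X := by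
    rw [← hN]
    exact dvd_pow_pow_sub_self_of_dvd hd
  have hL1 : 1 < Fintype.card L := Fintype.one_lt_card
  have hLne : (X ^ (Fintype.card L) - X : L[X]) ≠ 0 := FiniteField.X_pow_card_sub_X_ne_zero L hL1
  have hroots : (X ^ (Fintype.card L) - X : L[X]).roots = (univ : Finset L).val := FiniteField.roots_X_pow_card_sub_X L
  have hsplit : (X ^ (Fintype.card L) - X : L[X]).Splits := by
    rw [splits_iff_card_roots, hroots, FiniteField.X_pow_card_sub_X_natDegree_eq L hL1]
    rfl
  have hs2 := hsplit.of_dvd hLne hdvd
  have hnd : (X ^ (Fintype.card k ^ n) - X : L[X]).roots.Nodup := by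
    have h3 : (X ^ (Fintype.card k ^ n) - X : L[X]).roots ≤ (X ^ (Fintype.card L) - X : L[X]).roots := roots.le_of_dvd hLne hdvd
    rw [hroots] at h3
    exact Multiset.nodup_of_le h3 univ.nodup
  have h4 : ((univ : Finset L).filter (fun x => x ^ Fintype.card k ^ n = x)) = (X ^ (Fintype.card k ^ n) - X : L[X]).roots.toFinset := by
    ext x
    rw [mem_filter, Multiset.mem_toFinset, mem_roots h1]
    simp [IsRoot, sub_eq_zero]
  rw [h4, Multiset.toFinset_card_of_nodup hnd, splits_iff_card_roots.1 hs2, FiniteField.X_pow_card_sub_X_natDegree_eq L hqn]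

variable (k L)

/-- the elements which generate the extension -/
noncomputable def S : Finset L := univ.filter (fun x => (minpoly k x).natDegree = Module.finrank k L)

/-- a chosen root of a polynomial -/
noncomputable def rt (P : k[X]) : L := by
  classical
  exact if h : ∃ x : L, minpoly k x = P then h.choose else 0

variable {k L}

theorem rt_spec (x : L) : minpoly k (rt k L (minpoly k x)) = minpoly k x := by
  unfold rt
  have h : ∃ y : L, minpoly k y = minpoly k x := ⟨x, rfl⟩
  rw [dif_pos h]
  exact h.choose_spec

variable (k L)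

/-- representatives of the conjugacy classes -/
noncomputable def Rp : Finset L := (S k L).image (fun x => rt k L (minpoly k x))

variable {k L}

theorem Rp_deg (y : L) (hy : y ∈ Rp k L) : (minpoly k y).natDegree = Module.finrank k L := by
  unfold Rp at hy
  obtain ⟨x, hx, rfl⟩ := mem_image.1 hy
  rw [rt_spec]
  unfold S at hx
  exact (mem_filter.1 hx).2

theorem Rp_inj (x : L) (hx : x ∈ Rp k L) (y : L) (hy : y ∈ Rp k L) (h : minpoly k x = minpoly k y) : x = y := by
  unfold Rp at hx hy
  obtain ⟨a, _, rfl⟩ := mem_image.1 hx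
  obtain ⟨b, _, rfl⟩ := mem_image.1 hy
  rw [rt_spec, rt_spec] at h
  show rt k L (minpoly k a) = rt k L (minpoly k b)
  rw [h]

open Classical in
theorem card_conj (y : L) : ((univ : Finset L).filter (fun x => minpoly k x = minpoly k y)).card = (minpoly k y).natDegree := by
  have : FiniteDimensional k L := Module.Finite.of_finite
  have hsep : (minpoly k y).Separable := Algebra.IsSeparable.isSeparable k y
  have hspl : ((minpoly k y).map (algebraMap k L)).Splits := Normal.splits inferInstance y
  rw [← card_rootSet_eq_natDegree hsep hspl, ← Set.toFinset_card]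
  congr 1
  ext x
  rw [mem_filter, Set.mem_toFinset, mem_rootSet]
  constructor
  · rintro ⟨_, h⟩
    exact ⟨(minpoly.monic (int_L (k := k) y)).ne_zero, by rw [← h]; exact minpoly.aeval k x⟩
  · rintro ⟨_, h⟩
    refine ⟨mem_univ _, ?_⟩
    exact (minpoly.eq_of_irreducible_of_monic (minpoly.irreducible (int_L (k := k) y)) h (minpoly.monic (int_L (k := k) y))).symm

theorem sum_S (F : L → ℝ) (hF : ∀ x y : L, minpoly k x = minpoly k y → F x = F y) :
    ∑ x ∈ S k L, F x = Module.finrank k L * ∑ y ∈ Rp k L, F y := by
  classical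
  have h1 : ∑ x ∈ S k L, F x = ∑ y ∈ Rp k L, ∑ x ∈ (S k L).filter (fun x => rt k L (minpoly k x) = y), F x := by
    rw [sum_fiberwise_of_maps_to]
    intro x hx
    exact mem_image_of_mem _ hx
  rw [h1, mul_sum]
  apply sum_congr rfl
  intro y hy
  have h2 : (S k L).filter (fun x => rt k L (minpoly k x) = y) = (univ : Finset L).filter (fun x => minpoly k x = minpoly k y) := by
    ext x
    rw [mem_filter, mem_filter]
    constructor
    · rintro ⟨_, h⟩
      refine ⟨mem_univ _, ?_⟩
      rw [← h, rt_spec]
    · rintro ⟨_, h⟩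
      refine ⟨?_, ?_⟩
      · unfold S
        rw [mem_filter]
        exact ⟨mem_univ _, by rw [h]; exact Rp_deg y hy⟩
      · rw [h]
        unfold Rp at hy
        obtain ⟨a, _, rfl⟩ := mem_image.1 hy
        rw [rt_spec]
  rw [h2, sum_congr rfl (g := fun _ => F y) (fun x hx => hF x y (mem_filter.1 hx).2), sum_const, card_conj, Rp_deg y hy, nsmul_eq_mul]

theorem card_S : ((S k L).card : ℝ) = Module.finrank k L * (Rp k L).card := by
  have h1 := sum_S (k := k) (L := L) (fun _ => (1 : ℝ)) (fun _ _ _ => rfl)
  simp only [sum_const, nsmul_eq_mul, mul_one] at h1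
  exact h1

end Orbits

end Pool.Agent.K4H4.ST
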