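import Mathlib

/-!
# Values of polynomials over a finite field at non-conjugate points of extensions
-/

set_option autoImplicit false

namespace Pool.Agent.K4H4.ST

open Finset Polynomial

section Surj

variable {k : Type} [Field k]

/-- a polynomial of small degree which vanishes at many non-conjugate points -/
theorem eq_zero_of_roots {ι : Type} [Fintype ι] (L : ι → Type) [∀ i, Field (L i)] [∀ i, Algebra k (L i)]
    [∀ i, FiniteDimensional k (L i)] (x : ∀ i, L i) (hinj : ∀ i j, minpoly k (x i) = minpoly k (x j) → i = j)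
    (F : k[X]) (hF : F.degree < ((∑ i, (minpoly k (x i)).natDegree : ℕ) : WithBot ℕ)) (h0 : ∀ i, aeval (x i) F = 0) : F = 0 := by
  classical
  have hint : ∀ i, IsIntegral k (x i) := fun i => IsIntegral.of_finite k (x i)
  have hmon : ∀ i, (minpoly k (x i)).Monic := fun i => minpoly.monic (hint i)
  have hdvd : ∏ i, minpoly k (x i) ∣ F := by
    apply Finset.prod_dvd_of_coprime
    · intro i _ j _ hij
      have hi := minpoly.irreducible (hint i)
      have hj := minpoly.irreducible (hint j)
      show IsCoprime (minpoly k (x i)) (minpoly k (x j))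
      rw [hi.coprime_iff_not_dvd]
      intro hd
      apply hij
      apply hinj
      exact eq_of_monic_of_associated (hmon i) (hmon j) (hi.associated_of_dvd hj hd)
    · intro i _
      exact minpoly.dvd k (x i) (h0 i)
  by_contra hne
  have h1 := Polynomial.degree_le_of_dvd hdvd hne
  rw [Polynomial.degree_eq_natDegree (Polynomial.monic_prod_of_monic _ _ (fun i _ => hmon i)).ne_zero,
    Polynomial.natDegree_prod_of_monic _ _ (fun i _ => hmon i)] at h1
  exact absurd hF (not_lt.2 h1)

theorem surj_aux {ι : Type} [Fintype ι] (L : ι → Type) [∀ i, Field (L i)] [∀ i, Algebra k (L i)]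
    [∀ i, FiniteDimensional k (L i)] (x : ∀ i, L i) (hinj : ∀ i j, minpoly k (x i) = minpoly k (x j) → i = j)
    (hdeg : ∀ i, (minpoly k (x i)).natDegree = Module.finrank k (L i)) (v : ∀ i, L i) :
    ∃ F : k[X], F.degree < ((∑ i, Module.finrank k (L i) : ℕ) : WithBot ℕ) ∧ ∀ i, aeval (x i) F = v i := by
  classical
  obtain ⟨D, hD⟩ : ∃ D : ℕ, D = ∑ i, Module.finrank k (L i) := ⟨_, rfl⟩
  rw [← hD]
  let φ : degreeLT k D →ₗ[k] (∀ i, L i) := 
    (LinearMap.pi (fun i => (aeval (R := k) (x i)).toLinearMap)).comp (degreeLT k D).subtype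
  have hφ : Function.Injective φ := by
    rw [← LinearMap.ker_eq_bot, LinearMap.ker_eq_bot']
    intro F hF
    have h1 : (F : k[X]) = 0 := by
      apply eq_zero_of_roots L x hinj
      · have h2 := mem_degreeLT.1 F.2
        rw [sum_congr rfl (fun i _ => hdeg i), ← hD]
        exact h2
      · intro i
        exact congrFun hF i
    exact Subtype.ext h1
  have hfin : Module.finrank k (degreeLT k D) = Module.finrank k (∀ i, L i) := by
    rw [Module.finrank_pi_fintype, ← hD, (degreeLTEquiv k D).finrank_eq, Module.finrank_fin_fun]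
  have : FiniteDimensional k (degreeLT k D) := (degreeLTEquiv k D).symm.finiteDimensional
  have hs := (LinearMap.injective_iff_surjective_of_finrank_eq_finrank hfin).1 hφ
  obtain ⟨F, hF⟩ := hs v
  exact ⟨F, mem_degreeLT.1 F.2, fun i => congrFun hF i⟩

/-- the values of the polynomials with the coefficients `u` -/
noncomputable def evL (k : Type) [Field k] {ι : Type} (L : ι → Type) [∀ i, Field (L i)] [∀ i, Algebra k (L i)] (x : ∀ i, L i) (D : ℕ) :
    (Fin D → k) →+ (∀ i, L i) where
  toFun u i := ∑ t, algebraMap k (L i) (u t) * x i ^ (t : ℕ)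
  map_zero' := by
    funext i
    simp
  map_add' u v := by
    funext i
    simp [add_mul, sum_add_distrib]

theorem evL_surj {ι : Type} [Fintype ι] (L : ι → Type) [∀ i, Field (L i)] [∀ i, Algebra k (L i)]
    [∀ i, FiniteDimensional k (L i)] (x : ∀ i, L i) (hinj : ∀ i j, minpoly k (x i) = minpoly k (x j) → i = j)
    (hdeg : ∀ i, (minpoly k (x i)).natDegree = Module.finrank k (L i)) (D : ℕ) (hD : ∑ i, Module.finrank k (L i) ≤ D) :
    Function.Surjective (evL k L x D) := by
  intro v
  obtain ⟨F, hF, hv⟩ := surj_aux L x hinj hdeg v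
  refine ⟨fun t => F.coeff t, ?_⟩
  funext i
  rw [← hv i]
  show ∑ t : Fin D, algebraMap k (L i) (F.coeff t) * x i ^ (t : ℕ) = _
  have h2 : F.degree < (D : WithBot ℕ) := hF.trans_le (by exact_mod_cast hD)
  by_cases hF0 : F = 0
  · rw [hF0]
    simp
  have h3 : F.natDegree < D := (Polynomial.natDegree_lt_iff_degree_lt hF0).2 h2
  rw [Polynomial.aeval_eq_sum_range' h3, ← Fin.sum_univ_eq_sum_range (fun t => F.coeff t • x i ^ t) D]
  apply sum_congr rfl
  intro t _
  rw [Algebra.smul_def]

end Surj

end Pool.Agent.K4H4.ST
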